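import Pool.Agent.H.MP_53e59f_lc.SG.Defs

/-!
# The number of blocks of a factor

`runs_cons_le` by cases; `runs_infix`: `b = s ++ a ++ t`: induction on `s` (`runs_cons_le`) and, for `a ++ t`, induction
on `a` (`runs a ≤ runs (a ++ t)`).
-/

namespace Pool.Agent.SG

open Pool.Agent.SF

theorem runs_cons_le {α : Type} [DecidableEq α] (a : α) (l : List α) :
    runs l ≤ runs (a :: l) := by
  cases l with
  | nil => exact Nat.zero_le _
  | cons b l =>
    show runs (b :: l) ≤ (if a = b then 0 else 1) + runs (b :: l)
    exact Nat.le_add_left _ _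

private theorem Ri_pos {α : Type} [DecidableEq α] (l : List α) (a : α) :
    1 ≤ runs (a :: l) := by
  induction l generalizing a with
  | nil => exact le_rfl
  | cons b l ih => exact (ih b).trans (runs_cons_le a (b :: l))

private theorem Ri_append {α : Type} [DecidableEq α] (t : List α) :
    ∀ a : List α, runs a ≤ runs (a ++ t)
  | [] => Nat.zero_le _
  | [a] => Ri_pos t a
  | a :: b :: l => by
    show (if a = b then 0 else 1) + runs (b :: l) ≤
      (if a = b then 0 else 1) + runs (b :: l ++ t)
    exact Nat.add_le_add_left (Ri_append t (b :: l)) _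

theorem runs_infix {α : Type} [DecidableEq α] {a b : List α} (h : a <:+: b) :
    runs a ≤ runs b := by
  obtain ⟨s, t, rfl⟩ := h
  rw [List.append_assoc]
  induction s with
  | nil => exact Ri_append t a
  | cons x s ih => exact ih.trans (runs_cons_le x _)

end Pool.Agent.SG
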