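import Pool.Agent.H.MP_53e59f_lc.SF.Defs

/-!
# Words whose common factors up to permutation have few blocks
-/

namespace Pool.Agent.SG

open Pool.Agent.SF
open Pool.Agent.H.MP_5be563_lc.PT

/-- If a factor `a` of `u` and a factor `b` of `v` are permutations of each other then one of them has
at most `t` blocks. -/
def Few {α : Type} [DecidableEq α] (t : ℕ) (u v : List α) : Prop :=
  ∀ a b : List α, a <:+: u → b <:+: v → a.Perm b → runs a ≤ t ∨ runs b ≤ t

/-- The bound for the number of the sets of tokens at the level `k`, for words `u`, `v` with `n` letters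
together. -/
def bnd (s k n t : ℕ) : ℕ := 2 * ((s + 1) ^ 2 * (k + 1) ^ 3 * (n + 1) * 4 ^ (t + 1))

/-- The bound for the lengths of the lists, for at most `c * log N` blocks (`N` = the length of the
input). -/
def cap (c : ℕ) (d : Dat) : ℕ :=
  d.2.1.length * (2 * ((d.1 + 1) ^ 2 *
    (d.2.2.2.2.1.length + d.2.2.2.2.2.length + d.2.1.length + 2) ^ 3 *
      (d.2.2.2.2.1.length + d.2.2.2.2.2.length + 1) * (4 * (enc d).bits.length ^ (2 * c))))

/-- The algorithm. -/
def dec (c : ℕ) (d : Dat) : Bool × Bool :=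
  alg d.1 d.2.1 d.2.2.1 d.2.2.2.1 d.2.2.2.2.1 d.2.2.2.2.2 (cap c d)

end Pool.Agent.SG
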