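import Pool.Agent.H.MP_53e59f_lc.SF.Tok
import Pool.Agent.H.MP_53e59f_lc.SG.Defs

/-!
# Symmetry, and the factors between two tokens

`Tk_swap`: `Sh.symm`, `w.length - (w.length - p) = p`. `perm_tokens`: `List.perm_iff_count` and `Tk_count` for both tokens:
`(u.take p').count z = (u.take p).count z + ((u.take p').drop p).count z` and the same for `v`
(`List.take_append_drop`, `List.count_append`).
-/

namespace Pool.Agent.SG

open Pool.Agent.SF

theorem Tk_swap {u v w : List ℕ} {p : ℕ} (h : Tk u v w p) : Tk v u w (w.length - p) := by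
  obtain ⟨h1, h2, h3, h4⟩ := h
  have e : w.length - (w.length - p) = p := by omega
  refine ⟨h3, by omega, by omega, ?_⟩
  rw [e]
  exact h4.symm

private theorem Swp_rs {u v w₁ w₂ : List ℕ} (hl : w₁.length = w₂.length)
    (h : Rs v u w₁ = Rs v u w₂) {p : ℕ} (hp : Tk u v w₁ p) : Tk u v w₂ p := by
  have h1 : w₁.length - p ∈ Rs v u w₁ := Tk_swap hp
  rw [h] at h1
  have h2 : Tk u v w₂ (w₂.length - (w₁.length - p)) := Tk_swap h1
  have h3 : p ≤ w₁.length := hp.2.1
  have e : w₂.length - (w₁.length - p) = p := by omega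
  rwa [e] at h2

private theorem Swp_cnt {l : List ℕ} {p p' : ℕ} (h : p ≤ p') (z : ℕ) :
    (l.take p').count z = (l.take p).count z + ((l.take p').drop p).count z := by
  conv_lhs => rw [← List.take_append_drop p (l.take p')]
  rw [List.count_append, List.take_take, min_eq_left h]

theorem Rs_swap {u v w₁ w₂ : List ℕ} (hl : w₁.length = w₂.length)
    (h : Rs v u w₁ = Rs v u w₂) : Rs u v w₁ = Rs u v w₂ := by
  ext p
  exact ⟨fun hp => Swp_rs hl h hp, fun hp => Swp_rs hl.symm h.symm hp⟩

theorem perm_tokens {u v w : List ℕ} {p p' : ℕ} (hp : Tk u v w p) (hp' : Tk u v w p')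
    (h : p ≤ p') :
    ((u.take p').drop p).Perm ((v.take (w.length - p)).drop (w.length - p')) := by
  rw [List.perm_iff_count]
  intro z
  have h1 := Tk_count hp z
  have h2 := Tk_count hp' z
  have h3 := Swp_cnt (l := u) h z
  have h4 := Swp_cnt (l := v) (show w.length - p' ≤ w.length - p by omega) z
  omega

end Pool.Agent.SG
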