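import Pool.Agent.H.MP_53e59f_lc.SG.Half
import Pool.Agent.H.MP_53e59f_lc.SG.Swp
import Pool.Agent.H.MP_53e59f_lc.SG.Ri

/-!
# The number of the sets of tokens

For every `w`: `One t u v w ∨ One t v u w`: otherwise there are tokens `p ≤ p'` of `w` with more than `t` blocks in the
factor of `u`, and tokens `q ≤ q'` of `w` for `(v, u)` with more than `t` blocks in the factor of `v`. Take the smallest
and the largest token (`p₀ ≤ p, w.length - q'` and `p₁ ≥ p', w.length - q`): the factor `a` of `u` between `p₀` and `p₁` contains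
the one between `p` and `p'`, and the factor `b` of `v` between `w.length - p₁` and `w.length - p₀` contains the one
between `q` and `q'`; a factor of a word has at most as many blocks (`runs_infix`), so `a`, `b` contradict `Few`
(`perm_tokens`). So the family is contained in the union of the family of `half` for `(u, v)` and of the family of the words
with `One t v u w`, which has at most as many elements as the one of `half` for `(v, u)` (`Rs_swap`).
-/

namespace Pool.Agent.SG

open Pool.Agent.SF

/-- Factors of a word given by positions. -/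
private theorem Cnt_infix (l : List ℕ) {A a b B : ℕ} (h1 : A ≤ a) (h2 : b ≤ B) :
    (l.take b).drop a <:+: (l.take B).drop A := by
  have e1 : l.take b = (l.take B).take b := by
    rw [List.take_take, min_eq_left h2]
  have e2 : ((l.take B).take b).drop a = (((l.take B).drop A).drop (a - A)).take (b - a) := by
    rw [List.drop_take, List.drop_drop, Nat.add_sub_cancel' h1]
  rw [e1, e2]
  exact (List.take_prefix _ _).isInfix.trans (List.drop_suffix _ _).isInfix

private theorem Cnt_factor (l : List ℕ) (a b : ℕ) : (l.take b).drop a <:+: l :=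
  (List.drop_suffix _ _).isInfix.trans (List.take_prefix _ _).isInfix

theorem one_or {t : ℕ} {u v : List ℕ} (h : Few t u v) (w : List ℕ) :
    One t u v w ∨ One t v u w := by
  by_contra hc
  rw [not_or] at hc
  obtain ⟨hc1, hc2⟩ := hc
  unfold One at hc1 hc2
  push Not at hc1 hc2
  obtain ⟨p, p', hp, hp', hpp, h1⟩ := hc1
  obtain ⟨q, q', hq, hq', hqq, h2⟩ := hc2
  have hq1 : q ≤ w.length := hq.2.1
  have hq2 : q' ≤ w.length := hq'.2.1
  have k1 : Tk u v w (min p (w.length - q')) := by
    rcases min_choice p (w.length - q') with e | e <;> rw [e]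
    · exact hp
    · exact Tk_swap hq'
  have k2 : Tk u v w (max p' (w.length - q)) := by
    rcases max_choice p' (w.length - q) with e | e <;> rw [e]
    · exact hp'
    · exact Tk_swap hq
  have k3 : min p (w.length - q') ≤ max p' (w.length - q) :=
    (min_le_left _ _).trans (hpp.trans (le_max_left _ _))
  have k4 := perm_tokens k1 k2 k3
  rcases h _ _ (Cnt_factor u _ _) (Cnt_factor v _ _) k4 with k5 | k5
  · have k6 := runs_infix (Cnt_infix u (min_le_left p (w.length - q'))
      (le_max_left p' (w.length - q)))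
    omega
  · have k6 := runs_infix (Cnt_infix v (A := w.length - max p' (w.length - q)) (a := q) (b := q')
      (B := w.length - min p (w.length - q')) (by
        have := le_max_right p' (w.length - q)
        omega) (by
        have := min_le_right p (w.length - q')
        omega))
    omega

theorem count_Rs (s : ℕ) {u v : List ℕ} {t : ℕ} (h : Few t u v) (k : ℕ) :
    {S : Set ℕ | ∃ w : List ℕ, w.length = k ∧ (∀ a ∈ w, a < s) ∧ S = Rs u v w}.Finite ∧
      {S : Set ℕ | ∃ w : List ℕ, w.length = k ∧ (∀ a ∈ w, a < s) ∧ S = Rs u v w}.ncard ≤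
        bnd s k (u.length + v.length) t := by
  classical
  obtain ⟨f1, n1⟩ := half s u v t k
  obtain ⟨f2, n2⟩ := half s v u t k
  set F1 : Set (Set ℕ) := {S : Set ℕ | ∃ w : List ℕ, w.length = k ∧ (∀ a ∈ w, a < s) ∧
    One t u v w ∧ S = Rs u v w} with hF1
  set G2 : Set (Set ℕ) := {S : Set ℕ | ∃ w : List ℕ, w.length = k ∧ (∀ a ∈ w, a < s) ∧
    One t v u w ∧ S = Rs v u w} with hG2
  set F2 : Set (Set ℕ) := {S : Set ℕ | ∃ w : List ℕ, w.length = k ∧ (∀ a ∈ w, a < s) ∧
    One t v u w ∧ S = Rs u v w} with hF2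
  have hw : ∀ S ∈ F2, ∃ w : List ℕ, w.length = k ∧ (∀ a ∈ w, a < s) ∧
    One t v u w ∧ S = Rs u v w := fun S hS => hS
  choose! g hg using hw
  have m1 : ∀ S ∈ F2, Rs v u (g S) ∈ G2 := fun S hS =>
    ⟨g S, (hg S hS).1, (hg S hS).2.1, (hg S hS).2.2.1, rfl⟩
  have m2 : Set.InjOn (fun S => Rs v u (g S)) F2 := by
    intro S hS S' hS' he
    have e := Rs_swap ((hg S hS).1.trans (hg S' hS').1.symm) he
    rw [(hg S hS).2.2.2, (hg S' hS').2.2.2]
    exact e
  have f3 : F2.Finite := Set.Finite.of_injOn m1 m2 f2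
  have n3 : F2.ncard ≤ G2.ncard := Set.ncard_le_ncard_of_injOn _ m1 m2 f2
  have hsub : {S : Set ℕ | ∃ w : List ℕ, w.length = k ∧ (∀ a ∈ w, a < s) ∧ S = Rs u v w} ⊆
      F1 ∪ F2 := by
    rintro S ⟨w, w1, w2, rfl⟩
    rcases one_or h w with w3 | w3
    · exact Or.inl ⟨w, w1, w2, w3, rfl⟩
    · exact Or.inr ⟨w, w1, w2, w3, rfl⟩
  refine ⟨(f1.union f3).subset hsub, ?_⟩
  refine (Set.ncard_le_ncard hsub (f1.union f3)).trans ((Set.ncard_union_le _ _).trans ?_)
  have b1 : (s + 1) ^ 2 * (k + 1) ^ 3 * (u.length + 1) * 4 ^ (t + 1) ≤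
      (s + 1) ^ 2 * (k + 1) ^ 3 * (u.length + v.length + 1) * 4 ^ (t + 1) := by
    refine Nat.mul_le_mul_right _ (Nat.mul_le_mul_left _ ?_)
    omega
  have b2 : (s + 1) ^ 2 * (k + 1) ^ 3 * (v.length + 1) * 4 ^ (t + 1) ≤
      (s + 1) ^ 2 * (k + 1) ^ 3 * (u.length + v.length + 1) * 4 ^ (t + 1) := by
    refine Nat.mul_le_mul_right _ (Nat.mul_le_mul_left _ ?_)
    omega
  unfold bnd
  omega

end Pool.Agent.SG
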