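import Pool.Agent.H.MP_53e59f_lc.SF.Mp
import Pool.Agent.H.MP_53e59f_lc.SG.Defs

/-!
# Factors of images

A factor of `u.map f` is `a.map f` for a factor `a` of `u` (`List.map_eq_append_iff`), permutations of images come
from permutations (`List.map_perm_map_iff` for injective maps), `runs_map`.
-/

namespace Pool.Agent.SG

open Pool.Agent.SF

private theorem Fm_factor {α β : Type} {f : α → β} {u : List α} {a : List β} (h : a <:+: u.map f) :
    ∃ a', a' <:+: u ∧ a = a'.map f := by
  obtain ⟨s, t, hst⟩ := h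
  obtain ⟨l₁, l₂, rfl, h1, h2⟩ := List.map_eq_append_iff.1 hst.symm
  obtain ⟨l₃, l₄, rfl, h3, h4⟩ := List.map_eq_append_iff.1 h1
  exact ⟨l₄, ⟨l₃, l₂, rfl⟩, h4.symm⟩

/-- Factors of images are images of factors. -/
theorem Few_map {α β : Type} [DecidableEq α] [DecidableEq β] {f : α → β}
    (hf : Function.Injective f) {t : ℕ} {u v : List α} (h : Few t u v) :
    Few t (u.map f) (v.map f) := by
  intro a b ha hb hab
  obtain ⟨a', ha', rfl⟩ := Fm_factor ha
  obtain ⟨b', hb', rfl⟩ := Fm_factor hb
  rw [runs_map hf, runs_map hf]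
  exact h a' b' ha' hb' ((List.map_perm_map_iff hf).1 hab)

end Pool.Agent.SG
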