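import Pool.Agent.H.MP_53e59f_lc.SG.Itr
import Pool.Agent.H.MP_53e59f_lc.SF.Corr
import Pool.Agent.H.MP_53e59f_lc.SG.Fm

/-!
# Correctness for instances (as SF/Corr)
-/

namespace Pool.Agent.SG

open Pool.Agent.SF

/-- The algorithm for two words `u`, `v` (the words of the instance in one of the two orders). -/
theorem alg_dat (x : Inst) {r C : ℕ} (u v : List (Fin x.s)) (hr : Few r u v)
    (hC : x.m * SG.bnd x.s (u.length + v.length + x.m + 1) (u.length + v.length) r ≤ C) :
    ((alg x.s x.dat.2.1 x.dat.2.2.1 x.dat.2.2.2.1 (u.map Fin.val) (v.map Fin.val) C).1 = true ↔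
      ∃ w, w ∈ x.M.accepts ∧ ¬ Sh u v w) ∧
    ((alg x.s x.dat.2.1 x.dat.2.2.1 x.dat.2.2.2.1 (u.map Fin.val) (v.map Fin.val) C).2 = true ↔
      ∃ w, w ∉ x.M.accepts ∧ Sh u v w) := by
  have hr' : Few r (u.map Fin.val) (v.map Fin.val) := Few_map Fin.val_injective hr
  have hm : ∀ w : List ℕ, (∀ a ∈ w, a < x.s) → ev x.dat.2.1 x.dat.2.2.1 w < x.m := by
    intro w hw
    obtain ⟨w', rfl⟩ := ex_map hw
    rw [ev_dat]
    exact (x.M.eval w').2
  have hC' : x.m * SG.bnd x.s ((u.map Fin.val).length + (v.map Fin.val).length +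
      x.dat.2.1.length + 1) ((u.map Fin.val).length + (v.map Fin.val).length) r ≤ C := by
    rw [Corr_len, List.length_map, List.length_map]
    exact hC
  obtain ⟨h1, h2⟩ := SG.alg_iff (acc := x.dat.2.2.2.1) hr' hm hC'
  refine ⟨h1.trans ?_, h2.trans ?_⟩
  · constructor
    · rintro ⟨w, -, hw, ha, hs⟩
      obtain ⟨w', rfl⟩ := ex_map hw
      exact ⟨w', (acc_dat x w').1 ha, fun h => hs ((Sh_map Fin.val_injective).2 h)⟩
    · have key : ∀ w : List (Fin x.s), w ∈ x.M.accepts → ¬ Sh u v w →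
          w.length ≤ u.length + v.length + x.m → ∃ w : List ℕ,
          w.length ≤ (u.map Fin.val).length + (v.map Fin.val).length + x.dat.2.1.length ∧
          (∀ a ∈ w, a < x.s) ∧ x.dat.2.2.2.1.getD (ev x.dat.2.1 x.dat.2.2.1 w) false = true ∧
          ¬ Sh (u.map Fin.val) (v.map Fin.val) w := by
        intro w ha hs hl
        refine ⟨w.map Fin.val, ?_, Corr_lt w, (acc_dat x w).2 ha,
          fun h => hs ((Sh_map Fin.val_injective).1 h)⟩
        rw [List.length_map, List.length_map, List.length_map, Corr_len]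
        exact hl
      rintro ⟨w, ha, hs⟩
      rcases Nat.lt_or_ge (u.length + v.length) w.length with h | h
      · obtain ⟨w', ha', h1', h2'⟩ := pump x.M (u.length + v.length) ha h
        refine key w' ha' (fun h3 => ?_) h2'
        have h4 := h3.length
        omega
      · exact key w ha hs (by omega)
  · constructor
    · rintro ⟨w, -, hw, ha, hs⟩
      obtain ⟨w', rfl⟩ := ex_map hw
      exact ⟨w', (Corr_acc x w').1 ha, (Sh_map Fin.val_injective).1 hs⟩
    · rintro ⟨w, ha, hs⟩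
      refine ⟨w.map Fin.val, ?_, Corr_lt w, (Corr_acc x w).2 ha, (Sh_map Fin.val_injective).2 hs⟩
      rw [List.length_map, List.length_map, List.length_map, hs.length]
      omega

/-- The bound is large enough. -/
theorem cap_ge (x : Inst) {r c : ℕ} (hr : r ≤ c * Nat.log 2 x.encode.length) :
    x.m * SG.bnd x.s (x.u.length + x.v.length + x.m + 1) (x.u.length + x.v.length) r ≤
      SG.cap c x.dat := by
  have h1 := Corr_pow (N := x.encode.length) (by
    rw [Inst.encode, Pool.Agent.H.MP_5be563_lc.PT.D.bits_length]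
    exact Nat.ne_of_gt (Pool.Agent.H.MP_5be563_lc.PT.D.size_pos _)) hr
  have e1 : x.dat.2.2.2.2.1.length = x.u.length := List.length_map _
  have e2 : x.dat.2.2.2.2.2.length = x.v.length := List.length_map _
  unfold SG.cap SG.bnd
  rw [Corr_len, e1, e2]
  exact Nat.mul_le_mul_left _ (Nat.mul_le_mul_left _ (Nat.mul_le_mul_left _ h1))

theorem dec_iff (x : Inst) {c : ℕ} (h : Few (c * Nat.log 2 x.encode.length) x.u x.v) :
    ((SG.dec c x.dat).1 = true ↔ ∃ w, w ∈ x.M.accepts ∧ ¬ Sh x.u x.v w) ∧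
    ((SG.dec c x.dat).2 = true ↔ ∃ w, w ∉ x.M.accepts ∧ Sh x.u x.v w) := by
  unfold SG.dec
  exact SG.alg_dat x x.u x.v h (SG.cap_ge x le_rfl)

end Pool.Agent.SG
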