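import Pool.Agent.H.MP_53e59f_lc.SF.Fin
import Pool.Agent.H.MP_53e59f_lc.SG.Corr
import Pool.Agent.H.MP_53e59f_lc.SG.PT

/-!
# The theorem
-/

namespace Pool.Agent.SG

open Pool.Agent.SF
open Pool.Agent.H.MP_5be563_lc.PT

theorem final (c : ℕ) :
    ∃ f g : Inst → Bool,
      Nonempty (Turing.TM2ComputableInPolyTime Inst.encode Computability.encodeBool f) ∧
      Nonempty (Turing.TM2ComputableInPolyTime Inst.encode Computability.encodeBool g) ∧
      ∀ x : Inst, Few (c * Nat.log 2 x.encode.length) x.u x.v →
        (f x = true ↔ x.M.accepts ≠ {w | Sh x.u x.v w}) ∧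
        (g x = true ↔ ¬ x.M.accepts ≤ {w | Sh x.u x.v w}) := by
  have hP : Poly (fun d : Dat => (SG.dec c d).1 || (SG.dec c d).2) := by
    have := SG.poly_dec c
    fun_prop
  have hQ : Poly (fun d : Dat => (SG.dec c d).1) := by
    have := SG.poly_dec c
    fun_prop
  obtain ⟨M⟩ := hP.tm2_bool
  obtain ⟨N⟩ := hQ.tm2_bool
  refine ⟨fun x => (SG.dec c x.dat).1 || (SG.dec c x.dat).2, fun x => (SG.dec c x.dat).1, ⟨?_⟩, ⟨?_⟩, ?_⟩
  · exact
      { tm := M.tm
        inputAlphabet := M.inputAlphabet
        outputAlphabet := M.outputAlphabet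
        time := M.time
        outputsFun := fun x => M.outputsFun x.dat }
  · exact
      { tm := N.tm
        inputAlphabet := N.inputAlphabet
        outputAlphabet := N.outputAlphabet
        time := N.time
        outputsFun := fun x => N.outputsFun x.dat }
  · intro x hx
    obtain ⟨h1, h2⟩ := SG.dec_iff x hx
    constructor
    · rw [Bool.or_eq_true, h1, h2]
      constructor
      · rintro (⟨w, hw1, hw2⟩ | ⟨w, hw1, hw2⟩) he
        · exact hw2 (he ▸ hw1 : w ∈ ({w | Sh x.u x.v w} : Set _))
        · exact hw1 (he ▸ (show w ∈ ({w | Sh x.u x.v w} : Set _) from hw2))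
      · intro hne
        by_contra hcon
        push Not at hcon
        apply hne
        ext w
        constructor
        · intro hw
          exact hcon.1 w hw
        · intro hw
          by_contra h3
          exact hcon.2 w h3 hw
    · rw [h1]
      constructor
      · rintro ⟨w, hw1, hw2⟩ hle
        exact hw2 (hle hw1)
      · intro hne
        by_contra hcon
        push Not at hcon
        exact hne fun w hw => hcon w hw

end Pool.Agent.SG
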