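import Pool.Agent.H.MP_53e59f_lc.SG.Defs

/-!
# The columns of the blocks and windows

The columns `cs` are the maximal blocks of `u` in their order (one column `(0, 0, 0)` for `u = []`). `win_aux` by
induction on `u`: for `a :: u` with the columns `(0, E, x) :: cs` of `u`: if `u = []` or `x = a`: `(0, E + 1, a)` and the
others shifted by one; otherwise `(0, 1, a)`, `(1, E + 1, x)` and the others shifted. (Colm for a shifted column with
`1 ≤ A` is immediate; all columns except the first one have `1 ≤ A`; only the equality `a = x` of `ltr` is used here.)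
A window `[p, p']` with `1 ≤ p` of `a :: u` is the window `[p - 1, p' - 1]` of `u` (index shifted by one in the second
case). A window starting at `0` has `i = 0` (third statement): `runs (a :: u.take p')` against `runs (u.take p')`.
-/

namespace Pool.Agent.SG

open Pool.Agent.SF

/-- shifted columns -/
private def Win_sh (c : ℕ × ℕ × ℕ) : ℕ × ℕ × ℕ := (c.1 + 1, c.2.1 + 1, c.2.2)

private theorem Win_runs_le (a : ℕ) (l : List ℕ) : runs l ≤ runs (a :: l) := by
  cases l with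
  | nil => exact Nat.zero_le _
  | cons b l =>
    show runs (b :: l) ≤ (if a = b then 0 else 1) + runs (b :: l)
    omega

private theorem Win_runs_pos (a : ℕ) (l : List ℕ) : 1 ≤ runs (a :: l) := by
  induction l generalizing a with
  | nil => exact le_rfl
  | cons b l ih =>
    have h1 := ih b
    show 1 ≤ (if a = b then 0 else 1) + runs (b :: l)
    omega

private theorem Win_colm {v u : List ℕ} {a A E x : ℕ} (h : Colm u v A E x)
    (hx : A = 0 → a ≠ x) : Colm (a :: u) v (A + 1) (E + 1) x := by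
  have h1 := h.le
  have h2 := h.len
  refine ⟨by omega, by rw [List.length_cons]; omega, ?_, ?_⟩
  · intro j h3 h4 b hb
    obtain ⟨j, rfl⟩ : ∃ i, j = i + 1 := ⟨j - 1, by omega⟩
    rw [List.getElem?_cons_succ] at hb
    exact h.ltr j (by omega) (by omega) b hb
  · right
    rw [Nat.add_sub_cancel]
    rcases Nat.eq_zero_or_pos A with h3 | h3
    · rw [h3, List.getElem?_cons_zero]
      intro h4
      exact hx h3 (Option.some.inj h4)
    · rcases h.left with h4 | h4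
      · omega
      · obtain ⟨A, rfl⟩ : ∃ i, A = i + 1 := ⟨A - 1, by omega⟩
        rw [List.getElem?_cons_succ]
        rwa [Nat.add_sub_cancel] at h4

/-- the first block is extended -/
private theorem Win_ext (v u : List ℕ) (a E x : ℕ) (cs : List (ℕ × ℕ × ℕ))
    (hx : u = [] ∨ x = a) (h1 : cs.length ≤ u.length)
    (h3 : ∀ c ∈ (0, E, x) :: cs, Colm u v c.1 c.2.1 c.2.2) (h4 : ∀ c ∈ cs, 1 ≤ c.1)
    (h5 : ∀ p', p' ≤ u.length → ∀ q, q ≤ p' → ∃ j, j < max 1 (runs (u.take p')) ∧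
      ∃ c, ((0, E, x) :: cs)[j]? = some c ∧ c.1 ≤ q ∧ q ≤ c.2.1)
    (h6 : ∀ p p', p ≤ p' → p' ≤ u.length → ∃ i, ∀ q, p ≤ q → q ≤ p' →
      ∃ j, j < max 1 (runs ((u.take p').drop p)) ∧
        ∃ c, ((0, E, x) :: cs)[i + j]? = some c ∧ c.1 ≤ q ∧ q ≤ c.2.1) :
    ∃ (E x : ℕ) (cs : List (ℕ × ℕ × ℕ)),
    cs.length ≤ (a :: u).length ∧ (∀ b l, a :: u = b :: l → x = b) ∧
    (∀ c ∈ (0, E, x) :: cs, Colm (a :: u) v c.1 c.2.1 c.2.2) ∧ (∀ c ∈ cs, 1 ≤ c.1) ∧
    (∀ p', p' ≤ (a :: u).length → ∀ q, q ≤ p' → ∃ j, j < max 1 (runs ((a :: u).take p')) ∧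
      ∃ c, ((0, E, x) :: cs)[j]? = some c ∧ c.1 ≤ q ∧ q ≤ c.2.1) ∧
    (∀ p p', p ≤ p' → p' ≤ (a :: u).length → ∃ i, ∀ q, p ≤ q → q ≤ p' →
      ∃ j, j < max 1 (runs (((a :: u).take p').drop p)) ∧
        ∃ c, ((0, E, x) :: cs)[i + j]? = some c ∧ c.1 ≤ q ∧ q ≤ c.2.1) := by
  have hget : ∀ (i : ℕ) (c : ℕ × ℕ × ℕ) (q : ℕ), ((0, E, x) :: cs)[i]? = some c → c.1 ≤ q → q ≤ c.2.1 →
      ∃ c' : ℕ × ℕ × ℕ, ((0, E + 1, a) :: cs.map Win_sh)[i]? = some c' ∧ c'.1 ≤ q + 1 ∧ q + 1 ≤ c'.2.1 := by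
    intro i c q hc h7 h8
    cases i with
    | zero =>
      rw [List.getElem?_cons_zero] at hc
      have hc' := Option.some.inj hc
      subst hc'
      exact ⟨_, List.getElem?_cons_zero, Nat.zero_le _, Nat.succ_le_succ h8⟩
    | succ i =>
      rw [List.getElem?_cons_succ] at hc
      refine ⟨Win_sh c, ?_, Nat.succ_le_succ h7, Nat.succ_le_succ h8⟩
      rw [List.getElem?_cons_succ, List.getElem?_map, hc]
      rfl
  have h5' : ∀ p', p' ≤ (a :: u).length → ∀ q, q ≤ p' →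
      ∃ j, j < max 1 (runs ((a :: u).take p')) ∧
      ∃ c, ((0, E + 1, a) :: cs.map Win_sh)[j]? = some c ∧ c.1 ≤ q ∧ q ≤ c.2.1 := by
    intro p' hp' q hq
    cases q with
    | zero => exact ⟨0, by omega, _, List.getElem?_cons_zero, Nat.zero_le _, Nat.zero_le _⟩
    | succ q =>
      obtain ⟨p', rfl⟩ : ∃ i, p' = i + 1 := ⟨p' - 1, by omega⟩
      rw [List.length_cons] at hp'
      obtain ⟨j, hj, c, hc, h7, h8⟩ := h5 p' (by omega) q (by omega)
      obtain ⟨c', hc', h9, h10⟩ := hget j c q hc h7 h8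
      refine ⟨j, ?_, c', hc', h9, h10⟩
      rw [List.take_succ_cons]
      have h11 := Win_runs_le a (u.take p')
      omega
  refine ⟨E + 1, a, cs.map Win_sh, ?_, ?_, ?_, ?_, h5', ?_⟩
  · rw [List.length_map, List.length_cons]
    omega
  · intro b l hb
    exact (List.cons.inj hb).1
  · intro c hc
    rcases List.mem_cons.1 hc with rfl | hc
    · have h7 := h3 (0, E, x) (List.mem_cons_self)
      have h8 := h7.len
      refine ⟨Nat.zero_le _, ?_, ?_, Or.inl rfl⟩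
      · show E + 1 ≤ (a :: u).length
        rw [List.length_cons]
        exact Nat.succ_le_succ h8
      · intro j _ hj b hb
        cases j with
        | zero =>
          rw [List.getElem?_cons_zero] at hb
          exact Or.inl (Option.some.inj hb).symm
        | succ j =>
          rw [List.getElem?_cons_succ] at hb
          have hj' : j < E := Nat.lt_of_succ_lt_succ hj
          rcases hx with hu | hxa
          · rw [hu] at hb
            simp at hb
          · have h9 := h7.ltr j (Nat.zero_le _) hj' b hb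
            show b = a ∨ b ∉ v
            rw [← hxa]
            exact h9
    · obtain ⟨c0, hc0, rfl⟩ := List.mem_map.1 hc
      have h7 := h4 c0 hc0
      exact Win_colm (h3 c0 (List.mem_cons_of_mem _ hc0)) (fun h0 => by omega)
  · intro c hc
    obtain ⟨c0, hc0, rfl⟩ := List.mem_map.1 hc
    exact Nat.succ_le_succ (Nat.zero_le _)
  · intro p p' hp hp'
    cases p with
    | zero =>
      refine ⟨0, fun q _ hq => ?_⟩
      obtain ⟨j, hj, c, hc, h7⟩ := h5' p' hp' q hq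
      exact ⟨j, by rwa [List.drop_zero], c, by rwa [Nat.zero_add], h7⟩
    | succ p =>
      obtain ⟨p', rfl⟩ : ∃ i, p' = i + 1 := ⟨p' - 1, by omega⟩
      rw [List.length_cons] at hp'
      obtain ⟨i, hi⟩ := h6 p p' (by omega) (by omega)
      refine ⟨i, fun q hq hq' => ?_⟩
      obtain ⟨q, rfl⟩ : ∃ i, q = i + 1 := ⟨q - 1, by omega⟩
      obtain ⟨j, hj, c, hc, h7, h8⟩ := hi q (by omega) (by omega)
      obtain ⟨c', hc', h9, h10⟩ := hget (i + j) c q hc h7 h8
      exact ⟨j, by rwa [List.take_succ_cons, List.drop_succ_cons], c', hc', h9, h10⟩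

/-- a new block -/
private theorem Win_new (v u : List ℕ) (a E x : ℕ) (cs : List (ℕ × ℕ × ℕ))
    (hu : u ≠ []) (hx : a ≠ x) (h1 : cs.length ≤ u.length) (h2 : ∀ b l, u = b :: l → x = b)
    (h3 : ∀ c ∈ (0, E, x) :: cs, Colm u v c.1 c.2.1 c.2.2) (h4 : ∀ c ∈ cs, 1 ≤ c.1)
    (h5 : ∀ p', p' ≤ u.length → ∀ q, q ≤ p' → ∃ j, j < max 1 (runs (u.take p')) ∧
      ∃ c, ((0, E, x) :: cs)[j]? = some c ∧ c.1 ≤ q ∧ q ≤ c.2.1)
    (h6 : ∀ p p', p ≤ p' → p' ≤ u.length → ∃ i, ∀ q, p ≤ q → q ≤ p' →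
      ∃ j, j < max 1 (runs ((u.take p').drop p)) ∧
        ∃ c, ((0, E, x) :: cs)[i + j]? = some c ∧ c.1 ≤ q ∧ q ≤ c.2.1) :
    ∃ (E x : ℕ) (cs : List (ℕ × ℕ × ℕ)),
    cs.length ≤ (a :: u).length ∧ (∀ b l, a :: u = b :: l → x = b) ∧
    (∀ c ∈ (0, E, x) :: cs, Colm (a :: u) v c.1 c.2.1 c.2.2) ∧ (∀ c ∈ cs, 1 ≤ c.1) ∧
    (∀ p', p' ≤ (a :: u).length → ∀ q, q ≤ p' → ∃ j, j < max 1 (runs ((a :: u).take p')) ∧
      ∃ c, ((0, E, x) :: cs)[j]? = some c ∧ c.1 ≤ q ∧ q ≤ c.2.1) ∧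
    (∀ p p', p ≤ p' → p' ≤ (a :: u).length → ∃ i, ∀ q, p ≤ q → q ≤ p' →
      ∃ j, j < max 1 (runs (((a :: u).take p').drop p)) ∧
        ∃ c, ((0, E, x) :: cs)[i + j]? = some c ∧ c.1 ≤ q ∧ q ≤ c.2.1) := by
  have hget : ∀ (i : ℕ) (c : ℕ × ℕ × ℕ) (q : ℕ), ((0, E, x) :: cs)[i]? = some c → c.1 ≤ q → q ≤ c.2.1 →
      ∃ c' : ℕ × ℕ × ℕ, ((0, 1, a) :: ((0, E, x) :: cs).map Win_sh)[i + 1]? = some c' ∧
        c'.1 ≤ q + 1 ∧ q + 1 ≤ c'.2.1 := by
    intro i c q hc h7 h8
    refine ⟨Win_sh c, ?_, Nat.succ_le_succ h7, Nat.succ_le_succ h8⟩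
    rw [List.getElem?_cons_succ, List.getElem?_map, hc]
    rfl
  have h5' : ∀ p', p' ≤ (a :: u).length → ∀ q, q ≤ p' →
      ∃ j, j < max 1 (runs ((a :: u).take p')) ∧
      ∃ c, ((0, 1, a) :: ((0, E, x) :: cs).map Win_sh)[j]? = some c ∧ c.1 ≤ q ∧ q ≤ c.2.1 := by
    intro p' hp' q hq
    rcases Nat.lt_or_ge 1 p' with hp1 | hp1
    · cases q with
      | zero => exact ⟨0, by omega, _, List.getElem?_cons_zero, Nat.zero_le _, Nat.zero_le _⟩
      | succ q =>
        obtain ⟨p', rfl⟩ : ∃ i, p' = i + 2 := ⟨p' - 2, by omega⟩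
        rw [List.length_cons] at hp'
        obtain ⟨j, hj, c, hc, h7, h8⟩ := h5 (p' + 1) (by omega) q (by omega)
        obtain ⟨c', hc', h9, h10⟩ := hget j c q hc h7 h8
        refine ⟨j + 1, ?_, c', hc', h9, h10⟩
        obtain ⟨b, l, rfl⟩ := List.exists_cons_of_ne_nil hu
        have hxb := h2 b l rfl
        rw [List.take_succ_cons] at hj
        rw [List.take_succ_cons, List.take_succ_cons]
        have h11 : runs (a :: b :: l.take p') = 1 + runs (b :: l.take p') := by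
          show (if a = b then 0 else 1) + runs (b :: l.take p') = _
          rw [if_neg (by rw [← hxb]; exact hx)]
        have h12 := Win_runs_pos b (l.take p')
        rw [h11]
        omega
    · exact ⟨0, by omega, _, List.getElem?_cons_zero, Nat.zero_le _, hq.trans hp1⟩
  refine ⟨1, a, ((0, E, x) :: cs).map Win_sh, ?_, ?_, ?_, ?_, h5', ?_⟩
  · rw [List.length_map, List.length_cons, List.length_cons]
    omega
  · intro b l hb
    exact (List.cons.inj hb).1
  · intro c hc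
    rcases List.mem_cons.1 hc with rfl | hc
    · refine ⟨Nat.zero_le _, ?_, ?_, Or.inl rfl⟩
      · show 1 ≤ (a :: u).length
        rw [List.length_cons]
        omega
      · intro j _ hj b hb
        have hj0 : j = 0 := Nat.lt_one_iff.1 hj
        rw [hj0, List.getElem?_cons_zero] at hb
        exact Or.inl (Option.some.inj hb).symm
    · obtain ⟨c0, hc0, rfl⟩ := List.mem_map.1 hc
      refine Win_colm (h3 c0 hc0) ?_
      rcases List.mem_cons.1 hc0 with rfl | hc1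
      · exact fun _ => hx
      · have h7 := h4 c0 hc1
        exact fun h0 => by omega
  · intro c hc
    obtain ⟨c0, hc0, rfl⟩ := List.mem_map.1 hc
    exact Nat.succ_le_succ (Nat.zero_le _)
  · intro p p' hp hp'
    cases p with
    | zero =>
      refine ⟨0, fun q _ hq => ?_⟩
      obtain ⟨j, hj, c, hc, h7⟩ := h5' p' hp' q hq
      exact ⟨j, by rwa [List.drop_zero], c, by rwa [Nat.zero_add], h7⟩
    | succ p =>
      obtain ⟨p', rfl⟩ : ∃ i, p' = i + 1 := ⟨p' - 1, by omega⟩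
      rw [List.length_cons] at hp'
      obtain ⟨i, hi⟩ := h6 p p' (by omega) (by omega)
      refine ⟨i + 1, fun q hq hq' => ?_⟩
      obtain ⟨q, rfl⟩ : ∃ i, q = i + 1 := ⟨q - 1, by omega⟩
      obtain ⟨j, hj, c, hc, h7, h8⟩ := hi q (by omega) (by omega)
      obtain ⟨c', hc', h9, h10⟩ := hget (i + j) c q hc h7 h8
      refine ⟨j, by rwa [List.take_succ_cons, List.drop_succ_cons], c', ?_, h9, h10⟩
      rw [← hc']
      congr 1
      omega

theorem win_aux (v : List ℕ) (u : List ℕ) : ∃ (E x : ℕ) (cs : List (ℕ × ℕ × ℕ)),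
    cs.length ≤ u.length ∧ (∀ a l, u = a :: l → x = a) ∧
    (∀ c ∈ (0, E, x) :: cs, Colm u v c.1 c.2.1 c.2.2) ∧ (∀ c ∈ cs, 1 ≤ c.1) ∧
    (∀ p', p' ≤ u.length → ∀ q, q ≤ p' → ∃ j, j < max 1 (runs (u.take p')) ∧
      ∃ c, ((0, E, x) :: cs)[j]? = some c ∧ c.1 ≤ q ∧ q ≤ c.2.1) ∧
    (∀ p p', p ≤ p' → p' ≤ u.length → ∃ i, ∀ q, p ≤ q → q ≤ p' →
      ∃ j, j < max 1 (runs ((u.take p').drop p)) ∧
        ∃ c, ((0, E, x) :: cs)[i + j]? = some c ∧ c.1 ≤ q ∧ q ≤ c.2.1) := by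
  induction u with
  | nil =>
    refine ⟨0, 0, [], le_rfl, ?_, ?_, ?_, ?_, ?_⟩
    · intro a l h
      exact absurd h (List.cons_ne_nil a l).symm
    · intro c hc
      have hc' := List.mem_singleton.1 hc
      subst hc'
      refine ⟨le_rfl, le_rfl, ?_, Or.inl rfl⟩
      intro j _ hj
      exact absurd hj (Nat.not_lt_zero j)
    · intro c hc
      exact absurd hc (List.not_mem_nil)
    · intro p' hp' q hq
      rw [List.length_nil] at hp'
      exact ⟨0, by omega, _, List.getElem?_cons_zero, Nat.zero_le _, by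
        show q ≤ 0
        omega⟩
    · intro p p' hp hp'
      rw [List.length_nil] at hp'
      refine ⟨0, fun q _ hq => ⟨0, by omega, _, List.getElem?_cons_zero, Nat.zero_le _, by
        show q ≤ 0
        omega⟩⟩
  | cons a u ih =>
    obtain ⟨E, x, cs, h1, h2, h3, h4, h5, h6⟩ := ih
    by_cases hx : u = [] ∨ x = a
    · exact Win_ext v u a E x cs hx h1 h3 h4 h5 h6
    · rw [not_or] at hx
      exact Win_new v u a E x cs hx.1 (Ne.symm hx.2) h1 h2 h3 h4 h5 h6

theorem windows (u v : List ℕ) : ∃ cs : List (ℕ × ℕ × ℕ), cs.length ≤ u.length + 1 ∧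
    (∀ c ∈ cs, Colm u v c.1 c.2.1 c.2.2) ∧
    ∀ p p', p ≤ p' → p' ≤ u.length → ∃ i, ∀ q, p ≤ q → q ≤ p' →
      ∃ j, j < max 1 (runs ((u.take p').drop p)) ∧
        ∃ c, cs[i + j]? = some c ∧ c.1 ≤ q ∧ q ≤ c.2.1 := by
  obtain ⟨E, x, cs, h1, -, h2, -, -, h3⟩ := win_aux v u
  exact ⟨(0, E, x) :: cs, by simpa using h1, h2, h3⟩

end Pool.Agent.SG
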