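import Pool.Agent.H.MP_53e59f_lc.SF.Det
import Pool.Agent.H.MP_53e59f_lc.SG.Win

/-!
# The number of the sets of tokens, one side

`One t u v w`: the factor of `u` between two tokens of `w` has at most `t` blocks. Let `cs` be the columns of
`windows u v`. If the set of the tokens of `w` is not empty let `p`, `p'` be its minimum and maximum (tokens are
`≤ u.length`), and `i` the index of `windows`: every token is in one of the columns `i + j`, `j < max 1 t`; `i < cs.length`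
(take `q = p`). Code of `w`: `gl s w`, `i : Fin (u.length + 1)`, the bits `bt c.1 c.2.1 c.2.2 u v w` of the columns
`cs[i + j]? = some c` for `j : Fin (t + 1)` (`(false, false)` if there is no such column). If `w₁`, `w₂` have the same code
then `Rs u v w₁ = Rs u v w₂`: a token `q` of `w₁` is in a column `i + j`, so by `det` it is a token of `w₂`. The number
of codes is at most `(s + 1) ^ 2 * (k + 1) ^ 3 * (u.length + 1) * 4 ^ (t + 1)` (see the proof of `count_Rs` in SF/Count).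
-/

namespace Pool.Agent.SG

open Pool.Agent.SF

/-- The factor of `u` between two tokens of `w` has at most `t` blocks. -/
def One (t : ℕ) (u v w : List ℕ) : Prop :=
  ∀ p p', Tk u v w p → Tk u v w p' → p ≤ p' → runs ((u.take p').drop p) ≤ t

private theorem Half_last {s : ℕ} (w : List ℕ) (h : ∀ a ∈ w, a < s) :
    w.getLastD s < s + 1 := by
  rcases List.eq_nil_or_concat w with rfl | ⟨l, a, rfl⟩
  · rw [List.getLastD_nil]
    omega
  · rw [List.concat_eq_append] at h ⊢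
    rw [List.getLastD_concat]
    have := h a (by simp)
    omega

private theorem Half_gl {s k : ℕ} {w : List ℕ} (hw : w.length = k) (h : ∀ a ∈ w, a < s) :
    gl s w ∈ Finset.range (s + 1) ×ˢ Finset.range (k + 1) ×ˢ Finset.range (k + 1) ×ˢ
      Finset.range (s + 1) ×ˢ Finset.range (k + 1) := by
  have h1 := cut_len (w.getLastD s) w
  have h2 : ∀ a ∈ cut (w.getLastD s) w, a < s := fun a ha => h a (cut_mem ha)
  rw [gl, Finset.mem_product, Finset.mem_product, Finset.mem_product, Finset.mem_product,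
    Finset.mem_range, Finset.mem_range, Finset.mem_range, Finset.mem_range, Finset.mem_range]
  refine ⟨Half_last w h, ?_, ?_, Half_last _ h2, ?_⟩
  · have h3 : List.count (w.getLastD s) w ≤ w.length := List.count_le_length
    exact Nat.lt_succ_of_le (h3.trans hw.le)
  · exact Nat.lt_succ_of_le (h1.trans hw.le)
  · have h3 : List.count ((cut (w.getLastD s) w).getLastD s) (cut (w.getLastD s) w) ≤
      (cut (w.getLastD s) w).length := List.count_le_length
    exact Nat.lt_succ_of_le (h3.trans (h1.trans hw.le))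

private theorem Half_idx {u v : List ℕ} {cs : List (ℕ × ℕ × ℕ)} (h1 : cs.length ≤ u.length + 1)
    (h3 : ∀ p p', p ≤ p' → p' ≤ u.length → ∃ i, ∀ q, p ≤ q → q ≤ p' →
      ∃ j, j < max 1 (runs ((u.take p').drop p)) ∧
        ∃ c, cs[i + j]? = some c ∧ c.1 ≤ q ∧ q ≤ c.2.1) {t : ℕ} {w : List ℕ}
    (hw : One t u v w) : ∃ i, i < u.length + 1 ∧ ∀ q ∈ Rs u v w, ∃ j, j < t + 1 ∧
      ∃ c, cs[i + j]? = some c ∧ c.1 ≤ q ∧ q ≤ c.2.1 := by
  have hfin : (Rs u v w).Finite := by
    refine (Set.finite_Icc 0 u.length).subset ?_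
    intro q hq
    have h5 : Tk u v w q := hq
    exact ⟨Nat.zero_le q, h5.1⟩
  rcases Set.eq_empty_or_nonempty (Rs u v w) with h | h
  · refine ⟨0, Nat.succ_pos _, fun q hq => ?_⟩
    rw [h] at hq
    exact absurd hq (Set.notMem_empty q)
  · obtain ⟨p, hp, hpm⟩ := Set.exists_min_image (Rs u v w) id hfin h
    obtain ⟨p', hp', hpm'⟩ := Set.exists_max_image (Rs u v w) id hfin h
    have hp1 : Tk u v w p := hp
    have hp1' : Tk u v w p' := hp'
    have hle : p ≤ p' := hpm p' hp'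
    obtain ⟨i, hi⟩ := h3 p p' hle hp1'.1
    have hr := hw p p' hp1 hp1' hle
    have hi' : ∀ q ∈ Rs u v w, ∃ j, j < t + 1 ∧
        ∃ c, cs[i + j]? = some c ∧ c.1 ≤ q ∧ q ≤ c.2.1 := by
      intro q hq
      obtain ⟨j, hj, hc⟩ := hi q (hpm q hq) (hpm' q hq)
      refine ⟨j, ?_, hc⟩
      refine lt_of_lt_of_le hj (max_le ?_ ?_)
      · omega
      · omega
    refine ⟨i, ?_, hi'⟩
    obtain ⟨j, -, c, hc, -, -⟩ := hi' p hp
    have h6 : i + j < cs.length := by
      by_contra hn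
      rw [List.getElem?_eq_none (not_lt.1 hn)] at hc
      exact absurd hc (by simp)
    omega

open Classical in
/-- The bits of the columns number `i + j`, `j < t + 1`. -/
private noncomputable def Half_bits (cs : List (ℕ × ℕ × ℕ)) (t : ℕ) (u v : List ℕ) (i : ℕ)
    (w : List ℕ) (j : Fin (t + 1)) : Bool × Bool :=
  match cs[i + (j : ℕ)]? with
  | some c => bt c.1 c.2.1 c.2.2 u v w
  | none => (false, false)

private theorem Half_bits_some {cs : List (ℕ × ℕ × ℕ)} {t : ℕ} {u v : List ℕ} {i : ℕ}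
    {w : List ℕ} {j : Fin (t + 1)} {c : ℕ × ℕ × ℕ} (h : cs[i + (j : ℕ)]? = some c) :
    Half_bits cs t u v i w j = bt c.1 c.2.1 c.2.2 u v w := by
  unfold Half_bits
  rw [h]

theorem half (s : ℕ) (u v : List ℕ) (t k : ℕ) :
    {S : Set ℕ | ∃ w : List ℕ, w.length = k ∧ (∀ a ∈ w, a < s) ∧ One t u v w ∧
        S = Rs u v w}.Finite ∧
      {S : Set ℕ | ∃ w : List ℕ, w.length = k ∧ (∀ a ∈ w, a < s) ∧ One t u v w ∧
        S = Rs u v w}.ncard ≤
        (s + 1) ^ 2 * (k + 1) ^ 3 * (u.length + 1) * 4 ^ (t + 1) := by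
  classical
  obtain ⟨cs, h1, h2, h3⟩ := windows u v
  obtain ⟨F, hF⟩ : ∃ F : Set (Set ℕ), F = {S : Set ℕ | ∃ w : List ℕ, w.length = k ∧
      (∀ a ∈ w, a < s) ∧ One t u v w ∧ S = Rs u v w} := ⟨_, rfl⟩
  rw [← hF]
  have hex : ∀ S ∈ F, ∃ w : List ℕ, w.length = k ∧ (∀ a ∈ w, a < s) ∧ One t u v w ∧
      S = Rs u v w := by
    intro S hS
    rw [hF] at hS
    exact hS
  choose! g hg using hex
  have hex' : ∀ S ∈ F, ∃ i, i < u.length + 1 ∧ ∀ q ∈ Rs u v (g S), ∃ j, j < t + 1 ∧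
      ∃ c, cs[i + j]? = some c ∧ c.1 ≤ q ∧ q ≤ c.2.1 :=
    fun S hS => Half_idx h1 h3 (hg S hS).2.2.1
  choose! ix hix using hex'
  obtain ⟨Φ, hΦ⟩ : ∃ Φ : Set ℕ → (ℕ × ℕ × ℕ × ℕ × ℕ) × ℕ × (Fin (t + 1) → Bool × Bool),
      ∀ S, Φ S = (gl s (g S), ix S, Half_bits cs t u v (ix S) (g S)) := ⟨_, fun _ => rfl⟩
  obtain ⟨T, hT⟩ : ∃ T : Finset ((ℕ × ℕ × ℕ × ℕ × ℕ) × ℕ × (Fin (t + 1) → Bool × Bool)),
      T = (Finset.range (s + 1) ×ˢ Finset.range (k + 1) ×ˢ Finset.range (k + 1) ×ˢ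
        Finset.range (s + 1) ×ˢ Finset.range (k + 1)) ×ˢ Finset.range (u.length + 1) ×ˢ
          (Finset.univ : Finset (Fin (t + 1) → Bool × Bool)) := ⟨_, rfl⟩
  have hmap : ∀ S ∈ F, Φ S ∈ (T : Set _) := by
    intro S hS
    rw [Finset.mem_coe, hT, hΦ]
    exact Finset.mem_product.2 ⟨Half_gl (hg S hS).1 (hg S hS).2.1,
      Finset.mem_product.2 ⟨Finset.mem_range.2 (hix S hS).1, Finset.mem_univ _⟩⟩
  have hsub : ∀ S₁ ∈ F, ∀ S₂ ∈ F, Φ S₁ = Φ S₂ → Rs u v (g S₁) ⊆ Rs u v (g S₂) := by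
    intro S₁ hS₁ S₂ hS₂ he
    rw [hΦ, hΦ] at he
    have he1 : gl s (g S₁) = gl s (g S₂) := congrArg Prod.fst he
    have he2 : ix S₁ = ix S₂ := congrArg (fun x => x.2.1) he
    have he3 : Half_bits cs t u v (ix S₁) (g S₁) = Half_bits cs t u v (ix S₂) (g S₂) :=
      congrArg (fun x => x.2.2) he
    intro q hq
    obtain ⟨j, hj, c, hc, h4, h5⟩ := (hix S₁ hS₁).2 q hq
    have h6 := congrFun he3 ⟨j, hj⟩
    rw [Half_bits_some hc, Half_bits_some (by rw [← he2]; exact hc)] at h6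
    have hcc : c ∈ cs := by
      obtain ⟨h7, h8⟩ := List.getElem?_eq_some_iff.1 hc
      rw [← h8]
      exact List.getElem_mem h7
    have h9 := det (h2 c hcc) ((hg S₁ hS₁).1.trans (hg S₂ hS₂).1.symm) he1 h6
    have h10 : q ∈ Rs u v (g S₁) ∩ Set.Icc c.1 c.2.1 := ⟨hq, h4, h5⟩
    rw [h9] at h10
    exact h10.1
  have hinj : Set.InjOn Φ F := by
    intro S₁ hS₁ S₂ hS₂ he
    rw [(hg S₁ hS₁).2.2.2, (hg S₂ hS₂).2.2.2]
    exact Set.Subset.antisymm (hsub S₁ hS₁ S₂ hS₂ he) (hsub S₂ hS₂ S₁ hS₁ he.symm)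
  refine ⟨?_, ?_⟩
  · refine Set.Finite.of_finite_image ?_ hinj
    refine T.finite_toSet.subset ?_
    rintro _ ⟨S, hS, rfl⟩
    exact hmap S hS
  · refine (Set.ncard_le_ncard_of_injOn Φ hmap hinj T.finite_toSet).trans (le_of_eq ?_)
    rw [Set.ncard_coe_finset, hT, Finset.card_product, Finset.card_product, Finset.card_product,
      Finset.card_product, Finset.card_product, Finset.card_product, Finset.card_range,
      Finset.card_range, Finset.card_range, Finset.card_univ, Fintype.card_fun, Fintype.card_fin,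
      Fintype.card_prod, Fintype.card_bool]
    ring

end Pool.Agent.SG
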