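import Pool.Agent.H.MP_53e59f_lc.SG.Inv
import Pool.Agent.H.MP_53e59f_lc.SF.Itr

/-!
# The iteration (as SF/Itr)
-/

namespace Pool.Agent.SG

open Pool.Agent.SF

variable {s : ℕ} {tab : List (List ℕ)} {st : ℕ} {acc : List Bool} {u v : List ℕ} {m r C : ℕ}

theorem bnd_mono {s k k' n r : ℕ} (h : k ≤ k') : SG.bnd s k n r ≤ SG.bnd s k' n r := by
  unfold SG.bnd
  gcongr

theorem good_iter (hr : Few r u v)
    (hm : ∀ w : List ℕ, (∀ a ∈ w, a < s) → ev tab st w < m) {n : ℕ}
    (hC : m * SG.bnd s (n + 1) (u.length + v.length) r ≤ C) {j : ℕ} (hj : j ≤ n + 1) :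
    ((one s tab acc u v C)^[j] (0, [(st, ini u)], false, false)).1 = j ∧
      Good s tab st u v j ((one s tab acc u v C)^[j] (0, [(st, ini u)], false, false)).2.1 := by
  induction j with
  | zero => exact ⟨rfl, good_zero⟩
  | succ j ih =>
    obtain ⟨h1, h2⟩ := ih (by omega)
    rw [Function.iterate_succ_apply']
    refine ⟨?_, ?_⟩
    · show ((one s tab acc u v C)^[j] (0, [(st, ini u)], false, false)).1 + 1 = j + 1
      rw [h1]
    · show Good s tab st u v (j + 1)
        (nxt s tab u v C ((one s tab acc u v C)^[j] (0, [(st, ini u)], false, false)).1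
          ((one s tab acc u v C)^[j] (0, [(st, ini u)], false, false)).2.1)
      rw [h1]
      exact SG.good_nxt hr hm ((Nat.mul_le_mul_left m (SG.bnd_mono hj)).trans hC) h2

theorem alg_iff (hr : Few r u v)
    (hm : ∀ w : List ℕ, (∀ a ∈ w, a < s) → ev tab st w < m)
    (hC : m * SG.bnd s (u.length + v.length + tab.length + 1) (u.length + v.length) r ≤ C) :
    ((alg s tab st acc u v C).1 = true ↔
      ∃ w : List ℕ, w.length ≤ u.length + v.length + tab.length ∧ (∀ a ∈ w, a < s) ∧
        acc.getD (ev tab st w) false = true ∧ ¬ Sh u v w) ∧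
    ((alg s tab st acc u v C).2 = true ↔
      ∃ w : List ℕ, w.length ≤ u.length + v.length + tab.length ∧ (∀ a ∈ w, a < s) ∧
        acc.getD (ev tab st w) false = false ∧ Sh u v w) := by
  have hg : ∀ k, k < u.length + v.length + tab.length + 1 →
      ((one s tab acc u v C)^[k] (0, [(st, ini u)], false, false)).1 = k ∧
        Good s tab st u v k ((one s tab acc u v C)^[k] (0, [(st, ini u)], false, false)).2.1 :=
    fun k hk => SG.good_iter hr hm hC (by omega)
  have hf := Itr_flags (s := s) (tab := tab) (st := st) (acc := acc) (u := u) (v := v) (C := C)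
    (u.length + v.length + tab.length + 1)
  refine ⟨?_, ?_⟩
  · show ((one s tab acc u v C)^[u.length + v.length + tab.length + 1]
      (0, [(st, ini u)], false, false)).2.2.1 = true ↔ _
    rw [hf.1]
    constructor
    · rintro ⟨k, hk, h⟩
      rw [(hg k hk).1, Itr_bad1 (hg k hk).2] at h
      obtain ⟨w, h1, h2⟩ := h
      exact ⟨w, by omega, h2⟩
    · rintro ⟨w, h1, h2⟩
      refine ⟨w.length, by omega, ?_⟩
      rw [(hg w.length (by omega)).1, Itr_bad1 (hg w.length (by omega)).2]
      exact ⟨w, rfl, h2⟩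
  · show ((one s tab acc u v C)^[u.length + v.length + tab.length + 1]
      (0, [(st, ini u)], false, false)).2.2.2 = true ↔ _
    rw [hf.2]
    constructor
    · rintro ⟨k, hk, h⟩
      rw [(hg k hk).1, Itr_bad2 (hg k hk).2] at h
      obtain ⟨w, h1, h2⟩ := h
      exact ⟨w, by omega, h2⟩
    · rintro ⟨w, h1, h2⟩
      refine ⟨w.length, by omega, ?_⟩
      rw [(hg w.length (by omega)).1, Itr_bad2 (hg w.length (by omega)).2]
      exact ⟨w, rfl, h2⟩

end Pool.Agent.SG
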